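import Pool.Agent.Lib.MP_85a137_nt.Main4
import Pool.Agent.Lib.MP_85a137_nt.Weight4
import Pool.Agent.Lib.MP_85a137_nt.Mom4
import Pool.Agent.Lib.MP_85a137_nt.Par4
import Pool.Agent.Lib.MP_85a137_nt.Cb4
import Pool.Agent.Lib.MP_85a137_nt.Mult3
import Pool.Agent.Lib.MP_85a137_nt.Fact
import Pool.Agent.Lib.MP_85a137_nt.CC
import Pool.Agent.Lib.MP_85a137_nt.Hits3
import Pool.Agent.Lib.MP_85a137_nt.Size3
import Pool.Agent.Lib.MP_85a137_nt.Up
import Pool.Agent.Lib.MP_85a137_nt.Low
import Pool.Agent.Lib.MP_85a137_nt.Brun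
import Pool.Agent.Lib.MP_85a137_nt.Off
import Pool.Agent.Lib.MP_85a137_nt.Diag
import Pool.Agent.Lib.MP_85a137_nt.Color
import Pool.Agent.Lib.MP_85a137_nt.Group

/-!
The exceptional set for many sum-equals-product sequences of length `k`, in arithmetic progressions.
-/

namespace Pool.Agent.Results.MP_85a137_nt.ExceptionalSetAP

open Finset Pool.Agent.Lib.MP_85a137_nt

open Classical in
/-- There are `c > 0` and `x₀` such that for every integer `x ≥ x₀`, every real `y` with
`log log x (log log log x)^4 ≤ y ≤ (log x)^(1/2) log log x`, every integer `q ≥ 1` with `log q ≤ exp (c y^2 / (log y)^3)` and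
every integer `b ≥ 0`, all but at most `x exp (-c log x log log y / y)` of the integers `0 ≤ i < x` have the
property that there are at least `exp (c y log log y / (log y)^2)` sum-equals-product sequences of length
`b + q i`, i.e. nondecreasing sequences of `b + q i` positive integers whose product equals their sum. -/
theorem result : ∃ (c : ℝ) (x₀ : ℕ), 0 < c ∧ ∀ x : ℕ, x₀ ≤ x → ∀ y : ℝ,
    Real.log (Real.log x) * Real.log (Real.log (Real.log x)) ^ 4 ≤ y →
    y ≤ Real.sqrt (Real.log x) * Real.log (Real.log x) →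
    ∀ q b : ℕ, 1 ≤ q → Real.log q ≤ Real.exp (c * y ^ 2 / Real.log y ^ 3) →
    (((range x).filter fun i => ¬ ∃ F : Finset (Fin (b + q * i) → ℕ),
      (∀ a ∈ F, Monotone a ∧ (∀ j, 0 < a j) ∧ ∏ j, a j = ∑ j, a j) ∧
        Real.exp (c * y * Real.log (Real.log y) / Real.log y ^ 2) ≤ F.card).card : ℝ) ≤
      x * Real.exp (-(c * Real.log x * Real.log (Real.log y) / y)) := by
  obtain ⟨x₀, h⟩ := tMain4 (tWeight4 low (cc up)) (mult3 fact)
    (tMom4 size3 (brunG up) off diag color group) (hits3_le inj3) tPar4 tCb4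
  refine ⟨1 / 10 ^ 7, x₀, by norm_num, fun x hx y hy1 hy2 q b hq1 hq2 =>
    le_trans ?_ (h x hx y hy1 hy2 q b hq1 hq2)⟩
  have hsub : ((range x).filter fun i => ¬ ∃ F : Finset (Fin (b + q * i) → ℕ),
      (∀ a ∈ F, Monotone a ∧ (∀ j, 0 < a j) ∧ ∏ j, a j = ∑ j, a j) ∧
        Real.exp (1 / 10 ^ 7 * y * Real.log (Real.log y) / Real.log y ^ 2) ≤ F.card) ⊆
      (range x).filter fun i => NN (b + q * i) <
        ((⌈Real.exp (1 / 10 ^ 7 * y * Real.log (Real.log y) / Real.log y ^ 2)⌉₊ : ℕ) : ℕ∞) := by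
    intro k hk
    rw [mem_filter] at hk ⊢
    refine ⟨hk.1, ?_⟩
    by_contra hn
    rw [not_lt] at hn
    apply hk.2
    obtain ⟨t, ht, hcard⟩ := Set.exists_subset_encard_eq hn
    have hfin : t.Finite := Set.finite_of_encard_eq_coe hcard
    refine ⟨hfin.toFinset, fun a ha => ht (hfin.mem_toFinset.mp ha), ?_⟩
    have h2 : hfin.toFinset.card =
        ⌈Real.exp (1 / 10 ^ 7 * y * Real.log (Real.log y) / Real.log y ^ 2)⌉₊ := by
      have h3 := hfin.encard_eq_coe_toFinset_card
      rw [hcard] at h3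
      exact_mod_cast h3.symm
    rw [h2]
    exact Nat.le_ceil _
  exact_mod_cast Finset.card_le_card hsub

end Pool.Agent.Results.MP_85a137_nt.ExceptionalSetAP
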