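import Pool.Agent.Lib.MP_85a137_nt.Fin4
import Pool.Agent.Lib.MP_85a137_nt.Main4
import Pool.Agent.Lib.MP_85a137_nt.Upp
import Pool.Agent.Lib.MP_85a137_nt.NumF
import Pool.Agent.Lib.MP_85a137_nt.Weight4
import Pool.Agent.Lib.MP_85a137_nt.Mom4
import Pool.Agent.Lib.MP_85a137_nt.Par4
import Pool.Agent.Lib.MP_85a137_nt.Cb4
import Pool.Agent.Lib.MP_85a137_nt.CntA
import Pool.Agent.Lib.MP_85a137_nt.NumA
import Pool.Agent.Lib.MP_85a137_nt.CntB
import Pool.Agent.Lib.MP_85a137_nt.NumB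
import Pool.Agent.Lib.MP_85a137_nt.Cou
import Pool.Agent.Lib.MP_85a137_nt.NumU
import Pool.Agent.Lib.MP_85a137_nt.Gw
import Pool.Agent.Lib.MP_85a137_nt.MS
import Pool.Agent.Lib.MP_85a137_nt.Zs
import Pool.Agent.Lib.MP_85a137_nt.Eu
import Pool.Agent.Lib.MP_85a137_nt.Poo
import Pool.Agent.Lib.MP_85a137_nt.Mult3
import Pool.Agent.Lib.MP_85a137_nt.Fact
import Pool.Agent.Lib.MP_85a137_nt.CC
import Pool.Agent.Lib.MP_85a137_nt.Hits3
import Pool.Agent.Lib.MP_85a137_nt.Size3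
import Pool.Agent.Lib.MP_85a137_nt.Up
import Pool.Agent.Lib.MP_85a137_nt.Low
import Pool.Agent.Lib.MP_85a137_nt.Brun
import Pool.Agent.Lib.MP_85a137_nt.Off
import Pool.Agent.Lib.MP_85a137_nt.Diag
import Pool.Agent.Lib.MP_85a137_nt.Color
import Pool.Agent.Lib.MP_85a137_nt.Group

/-!
The order of magnitude of the logarithm of the number of sum-equals-product sequences of length `k`, for
almost all `k`.
-/

namespace Pool.Agent.Results.MP_85a137_nt.NormalOrder

open Finset Pool.Agent.Lib.MP_85a137_nt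

open Classical in
/-- There are `c, C > 0` and `x₀` such that for every integer `x ≥ x₀`, with
`B = (log x)^(1/2) log log log x / log log x`, all but at most `x exp (-c B)` of the integers `k < x` have at least
`exp (c B)` and at most `exp (C B)` sum-equals-product sequences of length `k`, i.e. nondecreasing
sequences of `k` positive integers whose product equals their sum. -/
theorem result : ∃ (c C : ℝ) (x₀ : ℕ), 0 < c ∧ 0 < C ∧ ∀ x : ℕ, x₀ ≤ x → ∀ B : ℝ,
    B = Real.sqrt (Real.log x) * Real.log (Real.log (Real.log x)) / Real.log (Real.log x) →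
    (((range x).filter fun k => ¬ ((∃ F : Finset (Fin k → ℕ),
      (∀ a ∈ F, Monotone a ∧ (∀ i, 0 < a i) ∧ ∏ i, a i = ∑ i, a i) ∧
        Real.exp (c * B) ≤ F.card) ∧
      ∀ F : Finset (Fin k → ℕ),
        (∀ a ∈ F, Monotone a ∧ (∀ i, 0 < a i) ∧ ∏ i, a i = ∑ i, a i) →
        (F.card : ℝ) ≤ Real.exp (C * B))).card : ℝ) ≤ x * Real.exp (-(c * B)) := by
  have hUp : StmtUpp := tUpp (tCntA tGw tMS tZs (tEu tGw up)) tNumA
    (tCntB tGw tMS tZs (tPoo tGw tZs up)) tNumB tCou tNumU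
  have hMain : StmtMain4 := tMain4 (tWeight4 low (cc up)) (mult3 fact)
    (tMom4 size3 (brunG up) off diag color group) (hits3_le inj3) tPar4 tCb4
  obtain ⟨C, x₀, hC, h⟩ := tFin4 hMain hUp tNumF
  refine ⟨1 / 10 ^ 8, C, x₀, by norm_num, hC, fun x hx B hB => ?_⟩
  have hBB : B = BB x := hB
  refine le_trans ?_ (le_of_le_of_eq (h x hx) (by rw [hBB]))
  have hsub : ((range x).filter fun k => ¬ ((∃ F : Finset (Fin k → ℕ),
      (∀ a ∈ F, Monotone a ∧ (∀ i, 0 < a i) ∧ ∏ i, a i = ∑ i, a i) ∧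
        Real.exp (1 / 10 ^ 8 * B) ≤ F.card) ∧
      ∀ F : Finset (Fin k → ℕ),
        (∀ a ∈ F, Monotone a ∧ (∀ i, 0 < a i) ∧ ∏ i, a i = ∑ i, a i) →
        (F.card : ℝ) ≤ Real.exp (C * B))) ⊆
      (range x).filter fun k => NN k < ((⌈Real.exp (1 / 10 ^ 8 * BB x)⌉₊ : ℕ) : ℕ∞) ∨
        ((⌊Real.exp (C * BB x)⌋₊ : ℕ) : ℕ∞) < NN k := by
    intro k hk
    rw [mem_filter] at hk ⊢
    refine ⟨hk.1, ?_⟩
    rw [← hBB]
    by_contra hn
    rw [not_or, not_lt, not_lt] at hn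
    obtain ⟨h1, h2⟩ := hn
    apply hk.2
    constructor
    · obtain ⟨t, ht, hcard⟩ := Set.exists_subset_encard_eq h1
      have hfin : t.Finite := Set.finite_of_encard_eq_coe hcard
      refine ⟨hfin.toFinset, fun a ha => ht (hfin.mem_toFinset.mp ha), ?_⟩
      have h3 : hfin.toFinset.card = ⌈Real.exp (1 / 10 ^ 8 * B)⌉₊ := by
        have h4 := hfin.encard_eq_coe_toFinset_card
        rw [hcard] at h4
        exact_mod_cast h4.symm
      rw [h3]
      exact Nat.le_ceil _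
    · intro F hF
      have h3 : (F.card : ℕ∞) ≤ NN k := by
        rw [← Set.encard_coe_eq_coe_finsetCard]
        exact Set.encard_le_encard fun a ha => hF a (Finset.mem_coe.mp ha)
      have h4 : F.card ≤ ⌊Real.exp (C * B)⌋₊ := by exact_mod_cast h3.trans h2
      calc (F.card : ℝ) ≤ (⌊Real.exp (C * B)⌋₊ : ℝ) := by exact_mod_cast h4
        _ ≤ Real.exp (C * B) := Nat.floor_le (Real.exp_pos _).le
  exact_mod_cast Finset.card_le_card hsub

end Pool.Agent.Results.MP_85a137_nt.NormalOrder
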